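import Pool.Agent.Y990.CB.Stm2
import Pool.Agent.W333.PC.Harris
import Pool.Agent.Y210.CB.Expl

set_option autoImplicit false

open MeasureTheory Set

/-!
Finite-size criterion (Simon) for nearest-neighbour percolation on `Z^d`, and its value at the
critical point (job CB-SIM of helper990).
-/

namespace Pool.Agent.Y333.CB

open Pool.Agent.Y990.CB
open Pool.Agent.W783.PC (pm DepOn Inc)
open Pool.Agent.W333.PC (up up_self up_ne sec sec_dep pm_split s_harris)
open Pool.Agent.Y210.CB (nbs card_nbs mem_nbs offs)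

noncomputable section

variable {d : ℕ}

/-! ### Negative correlation -/

/-- `E` is decreasing in the coordinates outside `S`. -/
def DecOff {ι : Type} (E : Set (ι → Bool)) (S : Finset ι) : Prop :=
  ∀ ω ω' : ι → Bool, (∀ c ∈ S, ω c = ω' c) → (∀ c, ω c = true → ω' c = true) → ω' ∈ E → ω ∈ E

lemma neg_corr0 {ι : Type} (r : ι → unitInterval) {E U : Set (ι → Bool)} {F : Finset ι}
    (hE : DepOn E (F : Set ι)) (hU : DepOn U (F : Set ι)) (hEd : DecOff E ∅) (hUi : Inc U) :
    (pm r).real (E ∩ U) ≤ (pm r).real E * (pm r).real U := by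
  classical
  have hEm : MeasurableSet E := Pool.Agent.W45.PC.s_depmeas ι F E hE
  have hUm : MeasurableSet U := Pool.Agent.W45.PC.s_depmeas ι F U hU
  have h := s_harris ι r F Eᶜ U (fun ω ω' h => not_congr (hE ω ω' h)) hU
    (fun ω ω' h hω hω' => hω (hEd ω ω' (fun c hc => absurd hc (Finset.notMem_empty c)) h hω')) hUi
  have h3 : (pm r).real Eᶜ = 1 - (pm r).real E := probReal_compl_eq_one_sub hEm
  have h4 : (pm r).real (U ∩ E) + (pm r).real (U \ E) = (pm r).real U :=
    measureReal_inter_add_sdiff hEm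
  have h5 : Eᶜ ∩ U = U \ E := by
    ext ω
    simp only [mem_inter_iff, mem_compl_iff, mem_sdiff]
    tauto
  rw [h5, h3] at h
  rw [inter_comm E U]
  nlinarith

/-- An event which is decreasing in the coordinates outside `S` and an increasing event which does
not depend on the coordinates in `S` are negatively correlated. -/
lemma neg_corr {ι : Type} [DecidableEq ι] (r : ι → unitInterval) {U : Set (ι → Bool)}
    {T : Finset ι} (hU : DepOn U (T : Set ι)) (hUi : Inc U) (S : Finset ι) :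
    ∀ (E : Set (ι → Bool)) (F : Finset ι), DepOn E (F : Set ι) → (∀ c ∈ S, c ∉ T) → DecOff E S →
    (pm r).real (E ∩ U) ≤ (pm r).real E * (pm r).real U := by
  induction S using Finset.induction_on with
  | empty =>
    intro E F hE _ hEd
    refine neg_corr0 r (F := F ∪ T) ?_ ?_ hEd hUi
    · exact fun ω ω' h => hE ω ω' (fun c hc => h c (by simp [Finset.mem_coe.1 hc]))
    · exact fun ω ω' h => hU ω ω' (fun c hc => h c (by simp [Finset.mem_coe.1 hc]))
  | insert c S hc ih =>
    intro E F hE hST hEd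
    set G := (F ∪ T).erase c with hG
    have hcG : c ∉ G := Finset.notMem_erase c _
    have hcT : c ∉ T := hST c (Finset.mem_insert_self c S)
    have hsub : ∀ i ∈ F ∪ T, i ∈ insert c G := by
      intro i hi
      by_cases hic : i = c
      · rw [hic]; exact Finset.mem_insert_self c G
      · exact Finset.mem_insert_of_mem (Finset.mem_erase.2 ⟨hic, hi⟩)
    have hE' : DepOn E ((insert c G : Finset ι) : Set ι) := fun ω ω' h =>
      hE ω ω' (fun i hi => h i (Finset.mem_coe.2 (hsub i (Finset.mem_union_left _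
        (Finset.mem_coe.1 hi)))))
    have hU' : DepOn U ((insert c G : Finset ι) : Set ι) := fun ω ω' h =>
      hU ω ω' (fun i hi => h i (Finset.mem_coe.2 (hsub i (Finset.mem_union_right _
        (Finset.mem_coe.1 hi)))))
    have hEU : DepOn (E ∩ U) ((insert c G : Finset ι) : Set ι) := fun ω ω' h =>
      and_congr (hE' ω ω' h) (hU' ω ω' h)
    have hsU : ∀ b : Bool, sec c b (E ∩ U) = sec c b E ∩ U := by
      intro b
      ext ω
      refine and_congr Iff.rfl ?_
      refine hU _ _ (fun i hi => ?_)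
      have hic : i ≠ c := fun e => hcT (e ▸ Finset.mem_coe.1 hi)
      exact up_ne hic b ω
    have hdec : ∀ b : Bool, DecOff (sec c b E) S := by
      intro b ω ω' h1 h2 h3
      refine hEd (up c b ω) (up c b ω') (fun i hi => ?_) (fun i hi => ?_) h3
      · by_cases hic : i = c
        · subst hic
          rw [up_self, up_self]
        · rw [up_ne hic, up_ne hic]
          exact h1 i ((Finset.mem_insert.1 hi).resolve_left hic)
      · by_cases hic : i = c
        · subst hic
          rw [up_self] at hi ⊢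
          exact hi
        · rw [up_ne hic] at hi ⊢
          exact h2 i hi
    have i1 := fun b : Bool => ih (sec c b E) G (sec_dep hE')
      (fun i hi => hST i (Finset.mem_insert_of_mem hi)) (hdec b)
    rw [pm_split r hcG hEU, pm_split r hcG hE', hsU, hsU]
    have j1 := i1 true
    have j0 := i1 false
    have hr0 : (0 : ℝ) ≤ r c := (r c).2.1
    have hr1 : (0 : ℝ) ≤ 1 - r c := by linarith [(r c).2.2]
    calc (r c : ℝ) * (pm r).real (sec c true E ∩ U) +
          (1 - (r c : ℝ)) * (pm r).real (sec c false E ∩ U)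
        ≤ (r c : ℝ) * ((pm r).real (sec c true E) * (pm r).real U) +
          (1 - (r c : ℝ)) * ((pm r).real (sec c false E) * (pm r).real U) :=
          add_le_add (mul_le_mul_of_nonneg_left j1 hr0) (mul_le_mul_of_nonneg_left j0 hr1)
      _ = _ := by ring

/-! ### The cluster of `0` in the box -/

/-- The cluster of `0` in the box is `A`. -/
def Ec (M : Mod d) (n : ℕ) (A : Set (Z d)) : Set (M.ι → Bool) := {ω | cl M ω (Bo 0 n) 0 = A}

/-- `x` is connected outside `A` to the frame of the box of radius `L` around `x`. -/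
def Uc (M : Mod d) (L : ℕ) (A : Set (Z d)) (x : Z d) : Set (M.ι → Bool) :=
  {ω | ∃ y ∈ Fr x L, (G M ω (Bo x L \ A)).Reachable x y}

lemma Ec_dep (M : Mod d) (n : ℕ) (A : Set (Z d)) : DepOn (Ec M n A) (In M (Bo 0 n)) := by
  intro ω ω' h
  show cl M ω (Bo 0 n) 0 = A ↔ cl M ω' (Bo 0 n) 0 = A
  unfold cl
  rw [graph_congr h]

lemma Uc_dep (M : Mod d) (L : ℕ) (A : Set (Z d)) (x : Z d) :
    DepOn (Uc M L A x) (In M (Bo x L \ A)) := by
  intro ω ω' h
  show (∃ y ∈ Fr x L, (G M ω (Bo x L \ A)).Reachable x y) ↔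
    (∃ y ∈ Fr x L, (G M ω' (Bo x L \ A)).Reachable x y)
  rw [graph_congr h]

lemma Uc_inc (M : Mod d) (L : ℕ) (A : Set (Z d)) (x : Z d) : Inc (Uc M L A x) := by
  rintro ω ω' h ⟨y, hy, h1⟩
  exact ⟨y, hy, SimpleGraph.Reachable.mono (G_mono M h (Subset.refl _)) h1⟩

lemma Uc_sub (M : Mod d) (L : ℕ) (A : Set (Z d)) (x : Z d) :
    Uc M L A x ⊆ {ω | Am M ω x L x} := by
  rintro ω ⟨y, hy, h1⟩
  exact ⟨y, hy, reach_mono sdiff_subset h1⟩

lemma reach_in_cl {M : Mod d} {ω : M.ι → Bool} {R : Set (Z d)} {x y : Z d}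
    (h : y ∈ cl M ω R x) : (G M ω (cl M ω R x)).Reachable x y := by
  have h' : (G M ω R).Reachable x y := h
  rw [SimpleGraph.reachable_iff_reflTransGen] at h'
  clear h
  induction h' with
  | refl => exact SimpleGraph.Reachable.refl x
  | @tail a b hxa hab ih =>
    have ha : a ∈ cl M ω R x := (SimpleGraph.reachable_iff_reflTransGen _ _).2 hxa
    have hb : b ∈ cl M ω R x := SimpleGraph.Reachable.trans ha hab.reachable
    exact ih.trans (SimpleGraph.Adj.reachable ⟨hab.1, ha, hb, hab.2.2.2⟩)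

lemma Ec_dec (M : Mod d) (n : ℕ) (A : Set (Z d)) (S : Finset M.ι) (hS : (S : Set M.ι) = In M A) :
    DecOff (Ec M n A) S := by
  intro ω ω' h1 h2 h3
  have h3' : cl M ω' (Bo 0 n) 0 = A := h3
  have hAB : A ⊆ Bo 0 n := by
    rw [← h3']
    exact cl_subset (self_mem_Bo 0 n)
  show cl M ω (Bo 0 n) 0 = A
  apply Set.Subset.antisymm
  · rw [← h3']
    exact cl_mono h2 (Subset.refl _) 0
  · intro a ha
    have h4 : a ∈ cl M ω' (Bo 0 n) 0 := by rw [h3']; exact ha
    have h5 := reach_in_cl h4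
    rw [h3'] at h5
    have h6 : G M ω A = G M ω' A := by
      refine graph_congr (fun c hc => h1 c ?_)
      rw [← hS] at hc
      exact Finset.mem_coe.1 hc
    rw [← h6] at h5
    exact reach_mono hAB h5

lemma last_exit {M : Mod d} {ω : M.ι → Bool} {R A : Set (Z d)} {u y : Z d}
    (h : (G M ω R).Reachable u y) (hu : u ∈ A) (hy : y ∉ A) :
    ∃ x x' : Z d, x ∈ A ∧ x' ∉ A ∧ (G M ω R).Adj x x' ∧ (G M ω (R \ A)).Reachable x' y := by
  rw [SimpleGraph.reachable_iff_reflTransGen] at h
  induction h with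
  | refl => exact absurd hu hy
  | @tail a b hxa hab ih =>
    by_cases ha : a ∈ A
    · exact ⟨a, b, ha, hy, hab, SimpleGraph.Reachable.refl b⟩
    · obtain ⟨x, x', h1, h2, h3, h4⟩ := ih ha
      exact ⟨x, x', h1, h2, h3, h4.trans (SimpleGraph.Adj.reachable
        ⟨hab.1, ⟨hab.2.1, ha⟩, ⟨hab.2.2.1, hy⟩, hab.2.2.2⟩)⟩

lemma mem_Ff {z x : Z d} {L : ℕ} : x ∈ Ff z L ↔ x ∈ Fr z L := by
  classical
  unfold Ff
  rw [Finset.mem_filter, mem_Bf]
  exact ⟨fun h => h.2, fun h => ⟨h.1, h⟩⟩

lemma key (M : Mod d) (p : unitInterval) (n L : ℕ) (A : Set (Z d)) (hA : A ⊆ Bo 0 n) (x : Z d) :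
    (mu M p).real (Ec M n A ∩ Uc M L A x) ≤
      (mu M p).real (Ec M n A) * (mu M p).real {ω | Am M ω 0 L 0} := by
  classical
  have hfA : (In M A).Finite := In_fin M ((Bo_finite 0 n).subset hA)
  have hfU : (In M (Bo x L \ A)).Finite := In_fin M ((Bo_finite x L).subset sdiff_subset)
  have hfE : (In M (Bo (0 : Z d) n)).Finite := In_fin M (Bo_finite 0 n)
  have h1 := neg_corr (fun _ : M.ι => p) (U := Uc M L A x) (T := hfU.toFinset)
    (by rw [Set.Finite.coe_toFinset]; exact Uc_dep M L A x) (Uc_inc M L A x) hfA.toFinset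
    (Ec M n A) hfE.toFinset (by rw [Set.Finite.coe_toFinset]; exact Ec_dep M n A)
    (by
      intro c hc hc'
      rw [Set.Finite.mem_toFinset] at hc hc'
      exact Set.disjoint_left.1 (In_disj M disjoint_sdiff_right) hc hc')
    (Ec_dec M n A _ (Set.Finite.coe_toFinset _))
  refine h1.trans (mul_le_mul_of_nonneg_left ?_ measureReal_nonneg)
  refine (measureReal_mono (Uc_sub M L A x) (measure_ne_top _ _)).trans (le_of_eq ?_)
  have h2 := Am_shift M p 0 x 0 L
  rw [zero_add] at h2
  exact h2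

/-- The expected number of vertices of the frame connected to the centre, times `2d`. -/
def fi (M : Mod d) (n : ℕ) (p : unitInterval) : ℝ :=
  2 * d * ∑ x ∈ Ff (0 : Z d) n, (mu M p).real (Cn M (Bo 0 n) 0 x)

lemma fi_nonneg (M : Mod d) (n : ℕ) (p : unitInterval) : 0 ≤ fi M n p :=
  mul_nonneg (by positivity) (Finset.sum_nonneg fun _ _ => measureReal_nonneg)

open scoped Classical in
lemma incl (M : Mod d) (n L : ℕ) : {ω : M.ι → Bool | Am M ω 0 (L + n + 2) 0} ⊆
    ⋃ x ∈ Ff (0 : Z d) n, ⋃ x' ∈ nbs x,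
      ⋃ A ∈ (Bf (0 : Z d) n).powerset.filter (fun A => x ∈ A),
        (Ec M n (A : Set (Z d)) ∩ Uc M L (A : Set (Z d)) x') := by
  rintro ω ⟨y, hy, hr⟩
  obtain ⟨hyB, i, hi⟩ := hy
  have hfin : (cl M ω (Bo 0 n) 0).Finite :=
    (Bo_finite 0 n).subset (cl_subset (self_mem_Bo 0 n))
  have hAB : cl M ω (Bo 0 n) 0 ⊆ Bo 0 n := cl_subset (self_mem_Bo 0 n)
  have hyA : y ∉ cl M ω (Bo 0 n) 0 := by
    intro h
    have h1 := hAB h i
    rw [hi] at h1
    push_cast at h1
    omega
  obtain ⟨x, x', h1, h2, h3, h4⟩ := last_exit hr (SimpleGraph.Reachable.refl 0) hyA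
  have hxB : x ∈ Bo 0 n := hAB h1
  have hx'B : x' ∉ Bo 0 n := by
    intro h
    apply h2
    exact SimpleGraph.Reachable.trans h1 (SimpleGraph.Adj.reachable ⟨h3.1, hxB, h, h3.2.2.2⟩)
  have hxF : x ∈ Fr 0 n := by
    refine ⟨hxB, ?_⟩
    have hb' : ∃ i, (n : ℤ) < |x' i - (0 : Z d) i| := by
      by_contra hc
      push Not at hc
      exact hx'B hc
    obtain ⟨j, hj⟩ := hb'
    refine ⟨j, le_antisymm (hxB j) ?_⟩
    have h5 := Nb_coord h3.1 j
    have h6 : |x' j - (0 : Z d) j| ≤ |x j - x' j| + |x j - (0 : Z d) j| := by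
      have := abs_sub_le (x' j) (x j) ((0 : Z d) j)
      rwa [abs_sub_comm (x' j) (x j)] at this
    omega
  have hyx' : y ∉ Bo x' L := by
    intro h
    have h5 := h i
    have h6 := hxB i
    have h7 := Nb_coord h3.1 i
    have h8 : |y i - (0 : Z d) i| ≤ |y i - x' i| + (|x i - x' i| + |x i - (0 : Z d) i|) := by
      have e1 := abs_sub_le (y i) (x' i) ((0 : Z d) i)
      have e2 := abs_sub_le (x' i) (x i) ((0 : Z d) i)
      rw [abs_sub_comm (x' i) (x i)] at e2
      linarith
    rw [hi] at h8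
    push_cast at h8
    omega
  obtain ⟨y', h5, h6⟩ := exit_box (self_mem_Bo x' L) hyx' h4
  simp only [mem_iUnion]
  refine ⟨x, mem_Ff.2 hxF, x', mem_nbs h3.1, hfin.toFinset, ?_, ?_⟩
  · rw [Finset.mem_filter, Finset.mem_powerset]
    refine ⟨?_, ?_⟩
    · intro v hv
      rw [Set.Finite.mem_toFinset] at hv
      exact mem_Bf.2 (hAB hv)
    · rw [Set.Finite.mem_toFinset]
      exact h1
  · rw [Set.Finite.coe_toFinset]
    refine ⟨rfl, y', h5, reach_mono ?_ h6⟩
    rintro v ⟨hv1, hv2⟩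
    exact ⟨hv2, hv1.2⟩

open scoped Classical in
lemma sum_Ec (M : Mod d) (p : unitInterval) (n : ℕ) (x : Z d) :
    ∑ A ∈ (Bf (0 : Z d) n).powerset.filter (fun A => x ∈ A),
      (mu M p).real (Ec M n (A : Set (Z d))) ≤ (mu M p).real (Cn M (Bo 0 n) 0 x) := by
  rw [← measureReal_biUnion_finset]
  · apply measureReal_mono
    · intro ω hω
      simp only [mem_iUnion] at hω
      obtain ⟨A, hA, hω⟩ := hω
      have h1 : cl M ω (Bo 0 n) 0 = (A : Set (Z d)) := hω
      have h2 : x ∈ (A : Set (Z d)) := Finset.mem_coe.2 (Finset.mem_filter.1 hA).2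
      rw [← h1] at h2
      exact h2
    · exact measure_ne_top _ _
  · intro A _ A' _ hne
    rw [Function.onFun, Set.disjoint_left]
    intro ω h3 h4
    apply hne
    have h5 : (A : Set (Z d)) = A' := Eq.trans (Eq.symm h3) h4
    exact_mod_cast h5
  · intro A _
    have hfE : (In M (Bo (0 : Z d) n)).Finite := In_fin M (Bo_finite 0 n)
    refine Pool.Agent.W45.PC.s_depmeas _ hfE.toFinset _ ?_
    rw [Set.Finite.coe_toFinset]
    exact Ec_dep M n A

/-- One step of the recursion. -/
lemma rec_step (M : Mod d) (p : unitInterval) (n L : ℕ) :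
    (mu M p).real {ω | Am M ω 0 (L + n + 2) 0} ≤
      fi M n p * (mu M p).real {ω | Am M ω 0 L 0} := by
  classical
  set a : ℝ := (mu M p).real {ω | Am M ω 0 L 0} with ha
  have ha0 : 0 ≤ a := measureReal_nonneg
  calc (mu M p).real {ω | Am M ω 0 (L + n + 2) 0}
      ≤ (mu M p).real (⋃ x ∈ Ff (0 : Z d) n, ⋃ x' ∈ nbs x,
          ⋃ A ∈ (Bf (0 : Z d) n).powerset.filter (fun A => x ∈ A),
            (Ec M n (A : Set (Z d)) ∩ Uc M L (A : Set (Z d)) x')) :=
        measureReal_mono (incl M n L) (measure_ne_top _ _)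
    _ ≤ ∑ x ∈ Ff (0 : Z d) n, ∑ x' ∈ nbs x,
          ∑ A ∈ (Bf (0 : Z d) n).powerset.filter (fun A => x ∈ A),
            (mu M p).real (Ec M n (A : Set (Z d)) ∩ Uc M L (A : Set (Z d)) x') := by
        refine (measureReal_biUnion_finset_le _ _).trans ?_
        refine Finset.sum_le_sum fun x _ => ?_
        refine (measureReal_biUnion_finset_le _ _).trans ?_
        refine Finset.sum_le_sum fun x' _ => ?_
        exact measureReal_biUnion_finset_le _ _
    _ ≤ ∑ x ∈ Ff (0 : Z d) n, ∑ x' ∈ nbs x, (mu M p).real (Cn M (Bo 0 n) 0 x) * a := by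
        refine Finset.sum_le_sum fun x _ => Finset.sum_le_sum fun x' _ => ?_
        refine le_trans (Finset.sum_le_sum (g := fun A : Finset (Z d) =>
          (mu M p).real (Ec M n (A : Set (Z d))) * a) ?_) ?_
        · intro A hA
          refine key M p n L A ?_ x'
          intro v hv
          exact mem_Bf.1 (Finset.mem_powerset.1 (Finset.mem_filter.1 hA).1 (Finset.mem_coe.1 hv))
        · rw [← Finset.sum_mul]
          exact mul_le_mul_of_nonneg_right (sum_Ec M p n x) ha0
    _ ≤ ∑ x ∈ Ff (0 : Z d) n, (2 * d : ℝ) * ((mu M p).real (Cn M (Bo 0 n) 0 x) * a) := by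
        refine Finset.sum_le_sum fun x _ => ?_
        rw [Finset.sum_const, nsmul_eq_mul]
        refine mul_le_mul_of_nonneg_right ?_ (mul_nonneg measureReal_nonneg ha0)
        have := card_nbs x
        have h2 : ((nbs x).card : ℝ) ≤ ((2 * d : ℕ) : ℝ) := by exact_mod_cast this
        push_cast at h2
        exact h2
    _ = _ := by
        unfold fi
        rw [← Finset.mul_sum, ← Finset.sum_mul]
        ring

lemma th_le (M : Mod d) (p : unitInterval) (L : ℕ) :
    th M p ≤ (mu M p).real {ω | Am M ω 0 L 0} := by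
  refine measureReal_mono ?_ (measure_ne_top _ _)
  intro ω hω
  obtain ⟨y, hy, hy'⟩ := hω.exists_notMem_finset (Bf 0 L)
  have hy'' : y ∉ Bo 0 L := fun h => hy' (mem_Bf.2 h)
  exact exit_Am (self_mem_Bo 0 L) (Or.inl hy'') hy

lemma th_zero_of (M : Mod d) (p : unitInterval) (n : ℕ) (h : fi M n p < 1) : th M p = 0 := by
  have h1 : ∀ k : ℕ, (mu M p).real {ω | Am M ω 0 (k * (n + 2)) 0} ≤ fi M n p ^ k := by
    intro k
    induction k with
    | zero => rw [pow_zero]; exact measureReal_le_one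
    | succ k ih =>
      have e : (k + 1) * (n + 2) = k * (n + 2) + n + 2 := by ring
      rw [e, pow_succ, mul_comm (fi M n p ^ k)]
      exact (rec_step M p n _).trans (mul_le_mul_of_nonneg_left ih (fi_nonneg M n p))
  have h2 := tendsto_pow_atTop_nhds_zero_of_lt_one (fi_nonneg M n p) h
  refine le_antisymm ?_ measureReal_nonneg
  exact ge_of_tendsto' h2 fun k => (th_le M p _).trans (h1 k)

/-- **Finite-size criterion.** -/
theorem sim : S_sim := fun _ M p n _ h => th_zero_of M p n h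

/-! ### The critical point -/

lemma fi_cont (M : Mod d) (n : ℕ) (p : unitInterval) (h : fi M n p < 1) :
    ∃ δ : ℝ, 0 < δ ∧ ∀ q : unitInterval, |(q : ℝ) - p| ≤ δ → fi M n q < 1 := by
  have hfE : (In M (Bo (0 : Z d) n)).Finite := In_fin M (Bo_finite 0 n)
  set D := hfE.toFinset with hD
  set K : ℝ := 2 * d * ((Ff (0 : Z d) n).card * D.card) with hK
  have hK0 : 0 ≤ K := by positivity
  have hδ : 0 < (1 - fi M n p) / (K + 1) := div_pos (by linarith) (by linarith)
  refine ⟨(1 - fi M n p) / (K + 1), hδ, fun q hq => ?_⟩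
  set δ : ℝ := (1 - fi M n p) / (K + 1) with hδe
  have h1 : ∀ x : Z d, (mu M q).real (Cn M (Bo 0 n) 0 x) ≤
      (mu M p).real (Cn M (Bo 0 n) 0 x) + D.card * δ := by
    intro x
    have h2 := Pool.Agent.W400.PC.s_tv _ (fun _ : M.ι => q) (fun _ : M.ι => p) D
      (Cn M (Bo 0 n) 0 x) (by rw [hD, Set.Finite.coe_toFinset]; exact Cn_dep M _ 0 x)
    have h3 : ∑ c ∈ D, |((fun _ : M.ι => q) c : ℝ) - (fun _ : M.ι => p) c| ≤ D.card * δ := by
      calc ∑ c ∈ D, |((fun _ : M.ι => q) c : ℝ) - (fun _ : M.ι => p) c|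
          ≤ ∑ c ∈ D, δ := Finset.sum_le_sum (fun c _ => hq)
        _ = D.card * δ := by rw [Finset.sum_const, nsmul_eq_mul]
    have h4 := (abs_le.1 (h2.trans h3)).2
    unfold mu
    linarith
  have h5 : fi M n q ≤ fi M n p + K * δ := by
    unfold fi
    calc 2 * (d : ℝ) * ∑ x ∈ Ff (0 : Z d) n, (mu M q).real (Cn M (Bo 0 n) 0 x)
        ≤ 2 * (d : ℝ) * ∑ x ∈ Ff (0 : Z d) n,
          ((mu M p).real (Cn M (Bo 0 n) 0 x) + D.card * δ) :=
          mul_le_mul_of_nonneg_left (Finset.sum_le_sum fun x _ => h1 x) (by positivity)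
      _ = _ := by
          rw [Finset.sum_add_distrib, Finset.sum_const, nsmul_eq_mul, hK]
          ring
  have h6 : K * δ < 1 - fi M n p := by
    have h7 : (K + 1) * δ = 1 - fi M n p := by
      rw [hδe]
      field_simp
    linarith
  linarith

lemma le_pc (M : Mod d) (q : unitInterval) (h : th M q = 0) : (q : ℝ) ≤ pc M := by
  have hb : BddAbove {x : ℝ | ∃ q : unitInterval, (q : ℝ) = x ∧ th M q = 0} :=
    ⟨1, by rintro x ⟨q, rfl, _⟩; exact q.2.2⟩
  exact le_csSup hb ⟨q, rfl, h⟩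

lemma Cn_one (M : Mod d) (n : ℕ) (x : Z d) (hx : x ∈ Bo 0 n) :
    (mu M 1).real (Cn M (Bo 0 n) 0 x) = 1 := by
  obtain ⟨P, _, hP, _⟩ := offs d M x
  have h1 := (hP 0 n 0 (self_mem_Bo 0 n) (by rwa [add_zero])).2
  rw [add_zero] at h1
  have h2 : (mu M 1).real (Cn M (Bo 0 n) 0 x)ᶜ ≤ 0 := by
    calc (mu M 1).real (Cn M (Bo 0 n) 0 x)ᶜ
        ≤ (mu M 1).real (⋃ c ∈ P, {ω | ω (M.tr (sf 0) c) = false}) := by
          refine measureReal_mono ?_ (measure_ne_top _ _)
          intro ω hω
          by_contra hc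
          simp only [mem_iUnion, not_exists] at hc
          apply hω
          refine h1 ω fun c hc' => ?_
          have := hc c hc'
          simpa using this
      _ ≤ ∑ c ∈ P, (mu M 1).real {ω | ω (M.tr (sf 0) c) = false} :=
          measureReal_biUnion_finset_le _ _
      _ = ∑ c ∈ P, (0 : ℝ) := by
          refine Finset.sum_congr rfl fun c _ => ?_
          have := Pool.Agent.W333.PC.pm_coord (fun _ : M.ι => (1 : unitInterval))
            (M.tr (sf 0) c) false
          unfold mu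
          rw [this]
          simp
      _ = 0 := Finset.sum_const_zero
  rw [probReal_compl_eq_one_sub (Cn_meas M _ _ _)] at h2
  exact le_antisymm measureReal_le_one (by linarith)

/-- **The finite-size quantity at the critical point.** -/
theorem phi : S_phi := by
  intro d M n hd hM
  by_contra hc
  push Not at hc
  have hc' : fi M n (pc M) < 1 := hc
  obtain ⟨δ, hδ, h1⟩ := fi_cont M n (pc M) hc'
  rcases lt_or_eq_of_le (pc M).2.2 with hlt | heq
  · set q : unitInterval := ⟨min ((pc M : ℝ) + δ) 1, by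
      refine le_min ?_ zero_le_one
      linarith [(pc M).2.1], min_le_right _ _⟩ with hq
    have hqv : (q : ℝ) = min ((pc M : ℝ) + δ) 1 := rfl
    have hq1 : (pc M : ℝ) < q := by
      rw [hqv]
      exact lt_min (by linarith) hlt
    have hq2 : (q : ℝ) ≤ pc M + δ := by
      rw [hqv]
      exact min_le_left _ _
    have h2 := th_zero_of M q n (h1 q (by rw [abs_le]; constructor <;> linarith))
    have h3 := le_pc M q h2
    linarith
  · have h1' : pc M = 1 := Subtype.ext heq
    rw [h1'] at hc'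
    unfold fi at hc'
    have h2 : ∑ x ∈ Ff (0 : Z d) n, (mu M 1).real (Cn M (Bo 0 n) 0 x) =
        ((Ff (0 : Z d) n).card : ℝ) := by
      rw [Finset.sum_congr rfl (fun x hx => Cn_one M n x (mem_Ff.1 hx).1)]
      simp
    have h3 : 1 ≤ (Ff (0 : Z d) n).card := by
      refine Finset.card_pos.2 ⟨fun _ => (n : ℤ), mem_Ff.2 ⟨?_, ⟨0, hd⟩, ?_⟩⟩
      · intro i
        simp
      · simp
    rw [h2] at hc'
    have h4 : (1 : ℝ) ≤ ((Ff (0 : Z d) n).card : ℝ) := by exact_mod_cast h3
    have h5 : (1 : ℝ) ≤ d := by exact_mod_cast hd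
    nlinarith

/-- **The critical point is positive.** -/
theorem pc_pos : ∀ (d : ℕ) (M : Mod d), Nd M → 0 < pc M := by
  intro d M hM
  have h0 : fi M 1 0 < 1 := by
    unfold fi
    have h1 : ∑ x ∈ Ff (0 : Z d) 1, (mu M 0).real (Cn M (Bo 0 1) 0 x) = 0 := by
      refine Finset.sum_eq_zero fun x hx => ?_
      obtain ⟨_, i, hi⟩ := mem_Ff.1 hx
      have hx0 : (0 : Z d) ≠ x := by
        rintro rfl
        simp at hi
      have h2 := Lk_zero M hM (Bo 0 1) {0} {x} (by
        rw [Set.disjoint_singleton]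
        exact hx0)
      refine le_antisymm (le_trans (measureReal_mono ?_ (measure_ne_top _ _)) h2.le)
        measureReal_nonneg
      intro ω hω
      exact ⟨0, rfl, x, rfl, hω⟩
    rw [h1, mul_zero]
    exact one_pos
  obtain ⟨δ, hδ, h1⟩ := fi_cont M 1 0 h0
  set q : unitInterval := ⟨min δ 1, le_min hδ.le zero_le_one, min_le_right _ _⟩ with hq
  have hqv : (q : ℝ) = min δ 1 := rfl
  have hq1 : (0 : ℝ) < q := by
    rw [hqv]
    exact lt_min hδ one_pos
  have hq2 : (q : ℝ) ≤ δ := by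
    rw [hqv]
    exact min_le_left _ _
  have h2 := th_zero_of M q 1 (h1 q (by
    have e : ((0 : unitInterval) : ℝ) = 0 := rfl
    rw [e, sub_zero, abs_of_pos hq1]
    exact hq2))
  have h3 := le_pc M q h2
  have h4 : (0 : ℝ) < (pc M : ℝ) := by linarith
  exact h4

end

end Pool.Agent.Y333.CB
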